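import Pool.Agent.Q112.LogExt

/-!
# Extending total colourings from matchings with `Δ + O(log Δ)` colours

For every finite simple graph `G` of maximum degree `D`, every total colouring of a distance-3
matching `H` of `G` with `k ≥ D + 68 + 1048 log (D + 1)` colours extends to a total colouring of `G`
with the same `k` colours.  The distance condition is not needed: it suffices that the colours of
the vertices of `H` are a proper colouring of the subgraph of `G` that they induce; and instead of a
matching `H` may be any subgraph of maximum degree at most `h`, with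
`k ≥ D + 34 (h + 1) + (480 h + 568) log (D + 1)` colours.
-/

set_option autoImplicit false

namespace Pool.Agent.Results.MP_db9399_co.AllGraphs

open Finset Pool.Agent.W842.KF Pool.Agent.Q112.LogExt

/-- The colours `g` of the vertices and `f` of the edges (the value of `f` at `s(u, v)` is the
colour of the edge `u v`; other values of `f` do not matter) form a total colouring of `G`: adjacent
vertices, edges with a common end, and an edge and its ends have different colours. -/
def IsTotalColoring {V : Type} {k : ℕ} (G : SimpleGraph V) (g : V → Fin k) (f : Sym2 V → Fin k) :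
    Prop :=
  (∀ u v, G.Adj u v → g u ≠ g v) ∧
  (∀ u v w, G.Adj u v → G.Adj u w → v ≠ w → f s(u, v) ≠ f s(u, w)) ∧
  (∀ u v, G.Adj u v → g u ≠ f s(u, v))

/-- The colours `g0`, `f0` of the vertices and edges of `H` (the vertices of `H` are the vertices
with a neighbour in `H`) are extended by the total colouring `g`, `f` of `G`. -/
def Extends {V : Type} {k : ℕ} (G H : SimpleGraph V) (g0 : V → Fin k) (f0 : Sym2 V → Fin k) :
    Prop :=
  ∃ (g : V → Fin k) (f : Sym2 V → Fin k), IsTotalColoring G g f ∧
    (∀ v ∈ H.support, g v = g0 v) ∧ ∀ e ∈ H.edgeSet, f e = f0 e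

/-- `H` is a distance-3 matching of `G`: a matching (a subgraph in which no vertex has two
neighbours; its vertices are the vertices with a neighbour in `H`) such that two vertices of `H` in
different components of `H` are at distance at least `3` in `G`. -/
def IsDistThreeMatching {V : Type} (G H : SimpleGraph V) : Prop :=
  H ≤ G ∧ (∀ u v w, H.Adj u v → H.Adj u w → v = w) ∧
    ∀ u v, u ∈ H.support → v ∈ H.support → u ≠ v → ¬ H.Adj u v → 3 ≤ G.edist u v

theorem edist_adj {V : Type} (G : SimpleGraph V) (u v : V) (h : G.Adj u v)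
    (h3 : 3 ≤ G.edist u v) : False := by
  have h1 : G.edist u v ≤ 1 := by
    have := SimpleGraph.Walk.edist_le (SimpleGraph.Walk.cons h SimpleGraph.Walk.nil)
    simpa using this
  have h2 : (3 : ℕ∞) ≤ 1 := h3.trans h1
  exact absurd h2 (by decide)

theorem ncard_nb {V : Type} [Fintype V] (G : SimpleGraph V) (v : V) :
    (G.neighborSet v).ncard = (nb G v).card := by
  classical
  rw [← Set.ncard_coe_finset]
  congr 1
  ext w
  simp [mem_nb]

theorem general (V : Type) [Fintype V] (G H : SimpleGraph V) (D h k : ℕ)
    (hD : ∀ v, (G.neighborSet v).ncard ≤ D) (hHG : H ≤ G)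
    (hh : ∀ v, (H.neighborSet v).ncard ≤ h)
    (hk : (D : ℝ) + 34 * (h + 1) + (480 * h + 568) * Real.log (D + 1) ≤ k)
    (g0 : V → Fin k) (f0 : Sym2 V → Fin k) (h0 : IsTotalColoring H g0 f0)
    (hG0 : ∀ u v, u ∈ H.support → v ∈ H.support → G.Adj u v → g0 u ≠ g0 v) :
    Extends G H g0 f0 := by
  classical
  obtain ⟨hc1, hc2, hc3⟩ := h0
  simp only [ncard_nb] at hD hh
  have hlog : 0 ≤ Real.log ((D : ℝ) + 1) :=
    Real.log_nonneg (by have : (0 : ℝ) ≤ D := Nat.cast_nonneg _; linarith)
  have hh0 : (0 : ℝ) ≤ h := Nat.cast_nonneg _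
  have hkD : D + 1 ≤ k := by
    have h2 : ((D + 1 : ℕ) : ℝ) ≤ k := by
      push_cast
      nlinarith
    exact_mod_cast h2
  -- the vertices
  let S : Finset V := univ.filter (fun v => v ∈ H.support)
  have hS : ∀ v, v ∈ S ↔ v ∈ H.support := by
    intro v
    simp [S]
  obtain ⟨s, hs1, hs2⟩ := greedy_gen (fun u v : V => G.Adj u v) (fun a b hab => hab.symm)
    (univ \ S) (fun v => ((nb G v).filter (fun u => u ∈ S)).image (fun u => (g0 u : ℕ))) k
    (fun v => (nb G v).filter (fun u => u ∉ S))
    (by
      intro t ht t' ht' _ hadj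
      rw [mem_sdiff] at ht'
      rw [mem_filter, mem_nb]
      exact ⟨hadj, ht'.2⟩)
    (by
      intro t _
      have h1 := card_image_le (s := (nb G t).filter (fun u => u ∈ S))
        (f := fun u => (g0 u : ℕ))
      have h2 := card_filter_add_card_filter_not (s := nb G t) (fun u => u ∈ S)
      have h3 := hD t
      omega)
  let g : V → Fin k := fun v => if hv : v ∈ S then g0 v else
    ⟨s v, (hs1 v (mem_sdiff.2 ⟨mem_univ _, hv⟩)).1⟩
  have hgS : ∀ v ∈ S, g v = g0 v := by
    intro v hv
    simp only [g]
    rw [dif_pos hv]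
  have hgn : ∀ v, v ∉ S → (g v : ℕ) = s v := by
    intro v hv
    simp only [g]
    rw [dif_neg hv]
  have hgprop : ∀ u v, G.Adj u v → g u ≠ g v := by
    intro u v huv he
    by_cases hu : u ∈ S
    · by_cases hv : v ∈ S
      · rw [hgS u hu, hgS v hv] at he
        exact hG0 u v ((hS u).1 hu) ((hS v).1 hv) huv he
      · apply (hs1 v (mem_sdiff.2 ⟨mem_univ _, hv⟩)).2
        rw [mem_image]
        refine ⟨u, ?_, ?_⟩
        · rw [mem_filter, mem_nb]
          exact ⟨huv.symm, hu⟩
        · rw [← hgS u hu, he, hgn v hv]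
    · by_cases hv : v ∈ S
      · apply (hs1 u (mem_sdiff.2 ⟨mem_univ _, hu⟩)).2
        rw [mem_image]
        refine ⟨v, ?_, ?_⟩
        · rw [mem_filter, mem_nb]
          exact ⟨huv, hv⟩
        · rw [← hgS v hv, ← he, hgn u hu]
      · have h1 : (g u : ℕ) = g v := by rw [he]
        rw [hgn u hu, hgn v hv] at h1
        exact hs2 u (mem_sdiff.2 ⟨mem_univ _, hu⟩) v (mem_sdiff.2 ⟨mem_univ _, hv⟩) huv.ne huv h1
  -- the edges
  let Γ : SimpleGraph V := G \ H
  have hΓ : ∀ u v, Γ.Adj u v ↔ G.Adj u v ∧ ¬ H.Adj u v := by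
    intro u v
    simp only [Γ, SimpleGraph.sdiff_adj]
  let X : V → Finset ℕ := fun v => (nb H v).image (fun w => (f0 s(v, w) : ℕ))
  let F : V → V → Finset ℕ := fun u v => {(g u : ℕ), (g v : ℕ)} ∪ (X u ∪ X v)
  have hF : ∀ u v, F u v = F v u := by
    intro u v
    simp only [F]
    rw [pair_comm, union_comm (X u)]
  have hX : ∀ v, (X v).card ≤ (nb H v).card := fun v => card_image_le
  have hFc : ∀ u v, (F u v).card ≤ 2 + (nb H u).card + (nb H v).card := by
    intro u v
    have h1 := card_union_le {(g u : ℕ), (g v : ℕ)} (X u ∪ X v)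
    have h2 := card_union_le (X u) (X v)
    have h3 : ({(g u : ℕ), (g v : ℕ)} : Finset ℕ).card ≤ 2 := card_le_two
    have h4 := hX u
    have h5 := hX v
    simp only [F]
    omega
  have hdegs : ∀ v, (nb Γ v).card + (nb H v).card ≤ (nb G v).card := by
    intro v
    rw [← card_union_of_disjoint]
    · apply card_le_card
      intro u hu
      rw [mem_union, mem_nb, mem_nb, hΓ] at hu
      rw [mem_nb]
      rcases hu with hu | hu
      · exact hu.1
      · exact hHG hu
    · rw [disjoint_left]
      intro u hu hu'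
      rw [mem_nb, hΓ] at hu
      rw [mem_nb] at hu'
      exact hu.2 hu'
  have hmain : ∃ c : V → V → ℕ, (∀ u v, c u v = c v u) ∧ (∀ u v, Γ.Adj u v → c u v < k) ∧
      (∀ u v, Γ.Adj u v → c u v ∉ F u v) ∧
      ∀ u v w, Γ.Adj u v → Γ.Adj u w → v ≠ w → c u v ≠ c u w := by
    rcases Nat.lt_or_ge (D + 1) 64 with h64 | h64
    · refine greedy_edges Γ F hF k ?_
      intro u v _
      have h1 := hFc u v
      have h2 := hdegs u
      have h3 := hdegs v
      have h4 := hD u
      have h5 := hD v
      have h6 : 2 * D + 1 ≤ k := by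
        rcases Nat.eq_zero_or_pos D with h7 | h7
        · omega
        · have h8 : (1 : ℝ) ≤ D := by exact_mod_cast h7
          have h9 : (1 : ℝ) / 2 ≤ Real.log (D + 1) := by
            have h10 := Real.one_sub_inv_le_log_of_pos (x := (D : ℝ) + 1) (by linarith)
            have h11 : ((D : ℝ) + 1)⁻¹ ≤ 1 / 2 := by
              rw [inv_le_comm₀ (by linarith) (by norm_num)]
              norm_num
              linarith
            linarith
          have h12 : (D : ℝ) ≤ 62 := by exact_mod_cast (by omega : D ≤ 62)
          have h13 : ((2 * D + 1 : ℕ) : ℝ) ≤ k := by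
            push_cast
            nlinarith
          exact_mod_cast h13
      omega
    · refine avoid Γ D (2 * h + 2) h64 ?_ (by omega) F hF ?_ k ?_
      · intro v
        have h2 := hdegs v
        have h4 := hD v
        omega
      · intro u v
        have h1 := hFc u v
        have h2 := hh u
        have h3 := hh v
        omega
      · push_cast
        nlinarith
  obtain ⟨c, hcs, hck, hcF, hcp⟩ := hmain
  let cS : Sym2 V → ℕ := fun e => Sym2.lift ⟨c, hcs⟩ e
  have hcS : ∀ u v, cS s(u, v) = c u v := fun u v => rfl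
  have hcSk : ∀ e, e ∈ Γ.edgeSet → cS e < k := by
    intro e he
    induction e using Sym2.ind with
    | _ u v => exact hck u v he
  let f : Sym2 V → Fin k := fun e => if he : e ∈ Γ.edgeSet then ⟨cS e, hcSk e he⟩ else f0 e
  have hf1 : ∀ u v, Γ.Adj u v → (f s(u, v) : ℕ) = c u v := by
    intro u v huv
    simp only [f]
    rw [dif_pos ((SimpleGraph.mem_edgeSet _).2 huv)]
    exact hcS u v
  have hf2 : ∀ u v, H.Adj u v → f s(u, v) = f0 s(u, v) := by
    intro u v huv
    simp only [f]
    rw [dif_neg]
    rw [SimpleGraph.mem_edgeSet, hΓ]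
    exact fun h => h.2 huv
  have hsuppS : ∀ u v, H.Adj u v → u ∈ S := by
    intro u v huv
    rw [hS, SimpleGraph.mem_support]
    exact ⟨v, huv⟩
  refine ⟨g, f, ⟨hgprop, ?_, ?_⟩, ?_, ?_⟩
  · intro u v w huv huw hvw he
    have he' : (f s(u, v) : ℕ) = f s(u, w) := by rw [he]
    by_cases h1 : H.Adj u v
    · by_cases h2 : H.Adj u w
      · rw [hf2 u v h1, hf2 u w h2] at he
        exact hc2 u v w h1 h2 hvw he
      · have h3 : Γ.Adj u w := (hΓ u w).2 ⟨huw, h2⟩
        rw [hf1 u w h3, hf2 u v h1] at he'
        apply hcF u w h3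
        rw [← he']
        simp only [F, X]
        rw [mem_union, mem_union]
        right
        left
        rw [mem_image]
        exact ⟨v, mem_nb.2 h1, rfl⟩
    · have h3 : Γ.Adj u v := (hΓ u v).2 ⟨huv, h1⟩
      by_cases h2 : H.Adj u w
      · rw [hf1 u v h3, hf2 u w h2] at he'
        apply hcF u v h3
        rw [he']
        simp only [F, X]
        rw [mem_union, mem_union]
        right
        left
        rw [mem_image]
        exact ⟨w, mem_nb.2 h2, rfl⟩
      · have h4 : Γ.Adj u w := (hΓ u w).2 ⟨huw, h2⟩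
        rw [hf1 u v h3, hf1 u w h4] at he'
        exact hcp u v w h3 h4 hvw he'
  · intro u v huv he
    by_cases h1 : H.Adj u v
    · rw [hf2 u v h1, hgS u (hsuppS u v h1)] at he
      exact hc3 u v h1 he
    · have h3 : Γ.Adj u v := (hΓ u v).2 ⟨huv, h1⟩
      have he' : (g u : ℕ) = f s(u, v) := by rw [he]
      rw [hf1 u v h3] at he'
      apply hcF u v h3
      rw [← he']
      simp [F]
  · intro v hv
    exact hgS v ((hS v).2 hv)
  · intro e he
    induction e using Sym2.ind with
    | _ u v => exact hf2 u v ((SimpleGraph.mem_edgeSet _).1 he)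

/-- Let `G` be a finite simple graph in which every vertex has at most `D` neighbours.

(1) If `k ≥ D + 68 + 1048 log (D + 1)`, then every total colouring with `k` colours of a distance-3
matching `H` of `G` extends to a total colouring of `G` with the same `k` colours.

(2) More generally, let `H` be any subgraph of `G` in which every vertex has at most `h` neighbours
and let `k ≥ D + 34 (h + 1) + (480 h + 568) log (D + 1)`.  Then every total colouring of `H` with `k`
colours for which vertices of `H` that are adjacent in `G` have different colours extends to a total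
colouring of `G` with the same `k` colours. -/
theorem result (V : Type) [Fintype V] (G : SimpleGraph V) (D : ℕ)
    (hD : ∀ v, (G.neighborSet v).ncard ≤ D) :
    (∀ k : ℕ, (D : ℝ) + 68 + 1048 * Real.log (D + 1) ≤ k →
      ∀ H : SimpleGraph V, IsDistThreeMatching G H →
      ∀ (g0 : V → Fin k) (f0 : Sym2 V → Fin k), IsTotalColoring H g0 f0 → Extends G H g0 f0) ∧
    (∀ h k : ℕ, (D : ℝ) + 34 * (h + 1) + (480 * h + 568) * Real.log (D + 1) ≤ k →
      ∀ H : SimpleGraph V, H ≤ G → (∀ v, (H.neighborSet v).ncard ≤ h) →
      ∀ (g0 : V → Fin k) (f0 : Sym2 V → Fin k), IsTotalColoring H g0 f0 →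
        (∀ u v, u ∈ H.support → v ∈ H.support → G.Adj u v → g0 u ≠ g0 v) →
        Extends G H g0 f0) := by
  refine ⟨?_, fun h k hk H hHG hh g0 f0 h0 h1 => general V G H D h k hD hHG hh hk g0 f0 h0 h1⟩
  intro k hk H hH g0 f0 h0
  obtain ⟨hHG, hmat, hdist⟩ := hH
  refine general V G H D 1 k hD hHG ?_ ?_ g0 f0 h0 ?_
  · intro v
    rw [Set.ncard_le_one (Set.toFinite _)]
    intro a ha b hb
    exact hmat v a b ha hb
  · push_cast
    linarith
  · intro u v hu hv huv
    by_cases h1 : H.Adj u v
    · exact h0.1 u v h1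
    · exact absurd (hdist u v hu hv huv.ne h1) (fun h => edist_adj G u v huv h)

end Pool.Agent.Results.MP_db9399_co.AllGraphs
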