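import Pool.Agent.TH559.LE.Bkw

/-!
# Extending total colourings from distance-3 matchings in bipartite graphs

Let `G` be a finite bipartite graph with maximum degree at most `D`, `H` a distance-3 matching of
`G` and `k ≥ D + 2`. Every total colouring of `H` with `k` colours extends to `G` if `k ≥ D + 3`,
and also if `k = D + 2` and no path with three edges, whose inner vertices are not in `H`, joins
vertices of `H` whose edges of `H` have the same colour.
-/

set_option autoImplicit false

namespace Pool.Agent.Results.MP_db9399_co.BipartiteGraphs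

open Finset

/-- The colours `g` of the vertices and `f` of the edges (the value of `f` at `s(u, v)` is the
colour of the edge `u v`; other values of `f` do not matter) form a total colouring of `G`: adjacent
vertices, edges with a common end, and an edge and its ends have different colours. -/
def IsTotalColoring {V : Type} {k : ℕ} (G : SimpleGraph V) (g : V → Fin k) (f : Sym2 V → Fin k) :
    Prop :=
  (∀ u v, G.Adj u v → g u ≠ g v) ∧
  (∀ u v w, G.Adj u v → G.Adj u w → v ≠ w → f s(u, v) ≠ f s(u, w)) ∧
  (∀ u v, G.Adj u v → g u ≠ f s(u, v))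

/-- `H` is a distance-3 matching of `G`: a matching (a subgraph in which no vertex has two
neighbours; its vertices are the vertices with a neighbour in `H`) such that two vertices of `H` in
different components of `H` are at distance at least `3` in `G`. -/
def IsDistThreeMatching {V : Type} (G H : SimpleGraph V) : Prop :=
  H ≤ G ∧ (∀ u v w, H.Adj u v → H.Adj u w → v = w) ∧
    ∀ u v, u ∈ H.support → v ∈ H.support → u ≠ v → ¬ H.Adj u v → 3 ≤ G.edist u v

theorem edist_adj {V : Type} (G : SimpleGraph V) (u v : V) (h : G.Adj u v)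
    (h3 : 3 ≤ G.edist u v) : False := by
  have h1 : G.edist u v ≤ 1 := by
    have := SimpleGraph.Walk.edist_le (SimpleGraph.Walk.cons h SimpleGraph.Walk.nil)
    simpa using this
  have h2 : (3 : ℕ∞) ≤ 1 := h3.trans h1
  exact absurd h2 (by decide)

theorem edist_two {V : Type} (G : SimpleGraph V) (u v w : V) (h : G.Adj w u) (h' : G.Adj w v)
    (h3 : 3 ≤ G.edist u v) : False := by
  have h1 : G.edist u v ≤ 2 := by
    have := SimpleGraph.Walk.edist_le
      (SimpleGraph.Walk.cons h.symm (SimpleGraph.Walk.cons h' SimpleGraph.Walk.nil))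
    simpa using this
  have h2 : (3 : ℕ∞) ≤ 2 := h3.trans h1
  exact absurd h2 (by decide)

/-- A proper colouring of the vertices in `P` extends greedily. -/
theorem greedy {V : Type} [Fintype V] (G : SimpleGraph V) (D k : ℕ)
    (hD : ∀ v, (G.neighborSet v).ncard ≤ D) (hk : D + 1 ≤ k) (P : Finset V) (φ0 : V → Fin k)
    (hP : ∀ u ∈ P, ∀ v ∈ P, G.Adj u v → φ0 u ≠ φ0 v) :
    ∃ φ : V → Fin k, (∀ u ∈ P, φ u = φ0 u) ∧ ∀ u v, G.Adj u v → φ u ≠ φ v := by
  classical
  have h : ∀ T : Finset V, ∃ φ : V → Fin k, (∀ u ∈ P, φ u = φ0 u) ∧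
      ∀ u ∈ P ∪ T, ∀ v ∈ P ∪ T, G.Adj u v → φ u ≠ φ v := by
    intro T
    induction T using Finset.induction_on with
    | empty =>
      refine ⟨φ0, fun _ _ => rfl, ?_⟩
      intro u hu v hv huv
      rw [Finset.union_empty] at hu hv
      exact hP u hu v hv huv
    | insert x T hx ih =>
      obtain ⟨φ, h1, h2⟩ := ih
      by_cases hxP : x ∈ P
      · refine ⟨φ, h1, ?_⟩
        have h3 : P ∪ insert x T = P ∪ T := by
          ext y
          simp only [Finset.mem_union, Finset.mem_insert]
          constructor
          · rintro (h | h | h)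
            · exact Or.inl h
            · exact Or.inl (h ▸ hxP)
            · exact Or.inr h
          · rintro (h | h)
            · exact Or.inl h
            · exact Or.inr (Or.inr h)
        rw [h3]
        exact h2
      · obtain ⟨c, hc⟩ : ∃ c : Fin k, c ∉ (G.neighborSet x).toFinset.image φ := by
          by_contra hcon
          push Not at hcon
          have h4 : (Finset.univ : Finset (Fin k)).card ≤
              ((G.neighborSet x).toFinset.image φ).card :=
            Finset.card_le_card (fun c _ => hcon c)
          have h5 := Finset.card_image_le (s := (G.neighborSet x).toFinset) (f := φ)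
          have h6 := hD x
          rw [Finset.card_univ, Fintype.card_fin] at h4
          have h7 : (G.neighborSet x).toFinset.card = (G.neighborSet x).ncard := by
            rw [Set.ncard_eq_toFinset_card']
          omega
        have hc' : ∀ y, G.Adj x y → φ y ≠ c := by
          intro y hy h
          apply hc
          rw [← h]
          exact Finset.mem_image_of_mem _ (by simpa using hy)
        refine ⟨Function.update φ x c, ?_, ?_⟩
        · intro u hu
          rw [Function.update_of_ne]
          · exact h1 u hu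
          · rintro rfl
            exact hxP hu
        · intro u hu v hv huv
          by_cases hux : u = x
          · subst hux
            rw [Function.update_self, Function.update_of_ne huv.ne']
            exact (hc' v huv).symm
          · rw [Function.update_of_ne hux]
            by_cases hvx : v = x
            · subst hvx
              rw [Function.update_self]
              exact hc' u huv.symm
            · rw [Function.update_of_ne hvx]
              apply h2 u _ v _ huv
              · simp only [Finset.mem_union, Finset.mem_insert] at hu ⊢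
                tauto
              · simp only [Finset.mem_union, Finset.mem_insert] at hv ⊢
                tauto
  obtain ⟨φ, h1, h2⟩ := h Finset.univ
  refine ⟨φ, h1, ?_⟩
  intro u v huv
  exact h2 u (Finset.mem_union_right _ (Finset.mem_univ _)) v
    (Finset.mem_union_right _ (Finset.mem_univ _)) huv

/-- Let `G` be a finite simple graph with a bipartition `side`, in which every vertex has at most
`D` neighbours, let `H` be a distance-3 matching of `G` and let `k ≥ D + 2`. Suppose that `k ≥ D + 3`
or that for any edges `s s'` and `t t'` of `H` such that `s` and `t` are joined by a path `s w w' t`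
of `G` whose inner vertices `w`, `w'` are not vertices of `H`, the colours of `s s'` and `t t'` are
different. Then every total colouring of `H` with `k` colours extends to a total colouring of `G`
with the same `k` colours. -/
theorem result (V : Type) [Fintype V] (G : SimpleGraph V) (side : V → Bool)
    (hside : ∀ u v, G.Adj u v → side u ≠ side v) (D : ℕ)
    (hD : ∀ v, (G.neighborSet v).ncard ≤ D) (k : ℕ) (hk : D + 2 ≤ k)
    (H : SimpleGraph V) (hH : IsDistThreeMatching G H) (g0 : V → Fin k) (f0 : Sym2 V → Fin k)
    (h0 : IsTotalColoring H g0 f0)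
    (hc : D + 3 ≤ k ∨ ∀ s s' w w' t t', H.Adj s s' → H.Adj t t' → G.Adj s w → G.Adj w w' →
      G.Adj w' t → w ∉ H.support → w' ∉ H.support → f0 s(s, s') ≠ f0 s(t, t')) :
    ∃ (g : V → Fin k) (f : Sym2 V → Fin k), IsTotalColoring G g f ∧
      (∀ v ∈ H.support, g v = g0 v) ∧ ∀ e ∈ H.edgeSet, f e = f0 e := by
  classical
  obtain ⟨hHG, hmat, hdist⟩ := hH
  obtain ⟨hc1, hc2, hc3⟩ := h0
  let S : Finset V := Finset.univ.filter (fun v => v ∈ H.support)
  have hS : ∀ v, v ∈ S ↔ ∃ w, H.Adj v w := by
    intro v
    simp only [S, Finset.mem_filter, Finset.mem_univ, true_and]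
    exact SimpleGraph.mem_support H
  have hSsup : ∀ v, v ∈ S ↔ v ∈ H.support := by
    intro v
    simp [S]
  let p : V → V := fun v => if h : ∃ w, H.Adj v w then h.choose else v
  have hp : ∀ v ∈ S, H.Adj v (p v) := by
    intro v hv
    have h := (hS v).1 hv
    simp only [p]
    rw [dif_pos h]
    exact h.choose_spec
  have hp' : ∀ v w, H.Adj v w → p v = w := by
    intro v w h
    exact hmat v _ _ (hp v ((hS v).2 ⟨w, h⟩)) h
  -- the colour of the edge of `H` at `v`
  let b : V → Fin k := fun v => f0 s(v, p v)
  have hkpos : 0 < k := by omega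
  let G' : SimpleGraph V := G \ H
  have hG' : ∀ x y, G'.Adj x y ↔ G.Adj x y ∧ ¬ H.Adj x y := by
    intro x y
    simp only [G', SimpleGraph.sdiff_adj]
  have hSadj : ∀ s ∈ S, ∀ t ∈ S, G.Adj s t → H.Adj s t := by
    intro s hs t ht hst
    by_contra hn
    exact edist_adj G s t hst (hdist s t ((hSsup s).1 hs) ((hSsup t).1 ht) hst.ne hn)
  -- a vertex outside the matching has at most one neighbour in it
  have huniq : ∀ w s t, s ∈ S → t ∈ S → G.Adj w s → G.Adj w t → s = t := by
    intro w s t hs ht hws hwt
    by_contra hne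
    by_cases hst : H.Adj s t
    · have h1 := hside w s hws
      have h2 := hside w t hwt
      have h3 := hside s t (hHG hst)
      revert h1 h2 h3
      cases side w <;> cases side s <;> cases side t <;> simp
    · exact edist_two G s t w hws hwt
        (hdist s t ((hSsup s).1 hs) ((hSsup t).1 ht) hne hst)
  -- the colouring of the vertices
  obtain ⟨φ, hφ1, hφ2, hφ3⟩ : ∃ φ : V → Fin k, (∀ u ∈ S, φ u = g0 u) ∧
      (∀ u v, G.Adj u v → φ u ≠ φ v) ∧
      (D + 3 ≤ k ∨ ∀ s ∈ S, ∀ w, w ∉ S → G.Adj s w → φ w = b s) := by
    rcases hc with hc | hc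
    · obtain ⟨φ, h1, h2⟩ := greedy G D k hD (by omega) S g0 (by
        intro u hu v hv huv
        exact hc1 u v (hSadj u hu v hv huv))
      exact ⟨φ, h1, h2, Or.inl hc⟩
    · let nbS : V → V := fun w => if h : ∃ s ∈ S, G.Adj w s then h.choose else w
      have hnbS : ∀ s ∈ S, ∀ w, G.Adj s w → nbS w = s := by
        intro s hs w hsw
        have h : ∃ s ∈ S, G.Adj w s := ⟨s, hs, hsw.symm⟩
        simp only [nbS]
        rw [dif_pos h]
        exact huniq w _ _ h.choose_spec.1 hs h.choose_spec.2 hsw.symm
      let φ0 : V → Fin k := fun v => if v ∈ S then g0 v else b (nbS v)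
      have hφ0S : ∀ s ∈ S, φ0 s = g0 s := by
        intro s hs
        simp only [φ0]
        rw [if_pos hs]
      have hφ0w : ∀ s ∈ S, ∀ w, w ∉ S → G.Adj s w → φ0 w = b s := by
        intro s hs w hw hsw
        simp only [φ0]
        rw [if_neg hw, hnbS s hs w hsw]
      let P : Finset V := S ∪ Finset.univ.filter (fun w => ∃ s ∈ S, G.Adj s w)
      have hPS : ∀ w, w ∈ P → w ∉ S → ∃ s ∈ S, G.Adj s w := by
        intro w hw hwS
        simp only [P, Finset.mem_union, Finset.mem_filter, Finset.mem_univ, true_and] at hw
        tauto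
      obtain ⟨φ, h1, h2⟩ := greedy G D k hD (by omega) P φ0 (by
        have hmix : ∀ u ∈ S, ∀ v, v ∉ S → G.Adj u v → φ0 u ≠ φ0 v := by
          intro u hu v hv huv
          rw [hφ0S u hu, hφ0w u hu v hv huv]
          exact hc3 u (p u) (hp u hu)
        intro u hu v hv huv
        by_cases huS : u ∈ S
        · by_cases hvS : v ∈ S
          · rw [hφ0S u huS, hφ0S v hvS]
            exact hc1 u v (hSadj u huS v hvS huv)
          · exact hmix u huS v hvS huv
        · by_cases hvS : v ∈ S
          · exact (hmix v hvS u huS huv.symm).symm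
          · obtain ⟨s, hs, hsu⟩ := hPS u hu huS
            obtain ⟨t, ht, htv⟩ := hPS v hv hvS
            rw [hφ0w s hs u huS hsu, hφ0w t ht v hvS htv]
            exact hc s (p s) u v t (p t) (hp s hs) (hp t ht) hsu huv htv.symm
              (fun h => huS ((hSsup u).2 h)) (fun h => hvS ((hSsup v).2 h)))
      refine ⟨φ, ?_, h2, Or.inr ?_⟩
      · intro u hu
        rw [h1 u (Finset.mem_union_left _ hu), hφ0S u hu]
      · intro s hs w hw hsw
        rw [h1 w (Finset.mem_union_right _ (Finset.mem_filter.2 ⟨Finset.mem_univ _, s, hs, hsw⟩)),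
          hφ0w s hs w hw hsw]
  -- the lists
  let ex : V → Finset ℕ := fun v => if v ∈ S then {(b v : ℕ)} else ∅
  let L : V × V → Finset ℕ := fun e =>
    Finset.range k \ (({(φ e.1 : ℕ), (φ e.2 : ℕ)} : Finset ℕ) ∪ (ex e.1 ∪ ex e.2))
  let E : Finset (V × V) := Finset.univ.filter
    (fun e => side e.1 = true ∧ G'.Adj e.1 e.2)
  have hE : ∀ x y, (x, y) ∈ E ↔ side x = true ∧ G'.Adj x y := by
    intro x y
    simp [E]
  have hLc : ∀ e ∈ E, D ≤ (L e).card := by
    rintro ⟨x, y⟩ he
    rw [hE] at he
    have hxy := he.2
    rw [hG'] at hxy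
    have hcard : ∀ A : Finset ℕ, A.card + D ≤ k →
        ({(φ x : ℕ), (φ y : ℕ)} : Finset ℕ) ∪ (ex x ∪ ex y) ⊆ A → D ≤ (L (x, y)).card := by
      intro A hA hsub
      have h1 := Finset.le_card_sdiff
        (({(φ x : ℕ), (φ y : ℕ)} : Finset ℕ) ∪ (ex x ∪ ex y)) (Finset.range k)
      have h2 := Finset.card_le_card hsub
      rw [Finset.card_range] at h1
      simp only [L]
      omega
    have hSone : ∀ s ∈ S, ∀ w, w ∉ S → G.Adj s w →
        ∃ A : Finset ℕ, A.card + D ≤ k ∧ (φ s : ℕ) ∈ A ∧ (φ w : ℕ) ∈ A ∧ (b s : ℕ) ∈ A := by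
      intro s hs w hw hsw
      rcases hφ3 with h | h
      · refine ⟨{(φ s : ℕ), (φ w : ℕ), (b s : ℕ)}, ?_, by simp, by simp, by simp⟩
        have := Finset.card_le_three (a := (φ s : ℕ)) (b := (φ w : ℕ)) (c := (b s : ℕ))
        omega
      · refine ⟨{(φ s : ℕ), (b s : ℕ)}, ?_, by simp, ?_, by simp⟩
        · have := Finset.card_le_two (a := (φ s : ℕ)) (b := (b s : ℕ))
          omega
        · rw [h s hs w hw hsw]
          simp
    by_cases hx : x ∈ S
    · have hy : y ∉ S := fun hy => hxy.2 (hSadj x hx y hy hxy.1)
      obtain ⟨A, hA, h1, h2, h3⟩ := hSone x hx y hy hxy.1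
      apply hcard A hA
      intro c hcm
      simp only [ex] at hcm
      rw [if_pos hx, if_neg hy] at hcm
      simp only [Finset.mem_union, Finset.mem_insert, Finset.mem_singleton, Finset.notMem_empty,
        or_false] at hcm
      rcases hcm with (rfl | rfl) | rfl
      · exact h1
      · exact h2
      · exact h3
    · by_cases hy : y ∈ S
      · obtain ⟨A, hA, h1, h2, h3⟩ := hSone y hy x hx hxy.1.symm
        apply hcard A hA
        intro c hcm
        simp only [ex] at hcm
        rw [if_neg hx, if_pos hy] at hcm
        simp only [Finset.mem_union, Finset.mem_insert, Finset.mem_singleton, Finset.notMem_empty,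
          false_or] at hcm
        rcases hcm with (rfl | rfl) | rfl
        · exact h2
        · exact h1
        · exact h3
      · apply hcard {(φ x : ℕ), (φ y : ℕ)}
        · have := Finset.card_le_two (a := (φ x : ℕ)) (b := (φ y : ℕ))
          omega
        · intro c hcm
          simp only [ex] at hcm
          rw [if_neg hx, if_neg hy] at hcm
          simpa using hcm
  have hdeg : ∀ v, (Finset.univ.filter (fun w => G'.Adj v w)).card ≤ D := by
    intro v
    refine le_trans ?_ (hD v)
    rw [Set.ncard_eq_toFinset_card']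
    apply Finset.card_le_card
    intro w hw
    rw [Finset.mem_filter, hG'] at hw
    simpa using hw.2.1
  obtain ⟨ψ, hψ⟩ := Pool.Agent.TH559.LE.bkw E L (by
    rintro ⟨x, y⟩ he
    apply le_trans _ (hLc _ he)
    apply max_le
    · refine le_trans ?_ (hdeg x)
      apply Finset.card_le_card_of_injOn (fun f => f.2)
      · rintro ⟨x', y'⟩ hf
        rw [Finset.mem_coe, Finset.mem_filter, hE] at hf
        rw [Finset.mem_coe, Finset.mem_filter]
        have h1 : x' = x := hf.2
        rw [h1] at hf
        exact ⟨Finset.mem_univ _, hf.1.2⟩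
      · rintro ⟨x1, y1⟩ h1 ⟨x2, y2⟩ h2 h
        rw [Finset.mem_coe, Finset.mem_filter] at h1 h2
        exact Prod.ext (h1.2.trans h2.2.symm) h
    · refine le_trans ?_ (hdeg y)
      apply Finset.card_le_card_of_injOn (fun f => f.1)
      · rintro ⟨x', y'⟩ hf
        rw [Finset.mem_coe, Finset.mem_filter, hE] at hf
        rw [Finset.mem_coe, Finset.mem_filter]
        have h1 : y' = y := hf.2
        rw [h1] at hf
        exact ⟨Finset.mem_univ _, hf.1.2.symm⟩
      · rintro ⟨x1, y1⟩ h1 ⟨x2, y2⟩ h2 h
        rw [Finset.mem_coe, Finset.mem_filter] at h1 h2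
        exact Prod.ext h (h1.2.trans h2.2.symm))
  -- the colour of an edge
  have hrep : ∀ e : Sym2 V, ∃ q : V × V, s(q.1, q.2) = e := by
    intro e
    induction e using Sym2.ind with
    | _ x y => exact ⟨(x, y), rfl⟩
  choose Q hQ using hrep
  let R : V → V → V × V := fun x y => if side x = true then (x, y) else (y, x)
  have hRsym : ∀ x y, G.Adj x y → R x y = R y x := by
    intro x y hxy
    have h := hside x y hxy
    simp only [R]
    by_cases hx : side x = true
    · have hy : ¬ side y = true := fun hy => h (hx.trans hy.symm)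
      rw [if_pos hx, if_neg hy]
    · have hy : side y = true := by
        revert h hx
        cases side x <;> cases side y <;> simp
      rw [if_neg hx, if_pos hy]
  have hRE : ∀ x y, G'.Adj x y → R x y ∈ E := by
    intro x y hxy
    have h := hside x y ((hG' x y).1 hxy).1
    simp only [R]
    by_cases hx : side x = true
    · rw [if_pos hx, hE]
      exact ⟨hx, hxy⟩
    · have hy : side y = true := by
        revert h hx
        cases side x <;> cases side y <;> simp
      rw [if_neg hx, hE]
      exact ⟨hy, hxy.symm⟩
  have hRmem : ∀ x y, (R x y = (x, y) ∨ R x y = (y, x)) := by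
    intro x y
    simp only [R]
    split_ifs
    · exact Or.inl rfl
    · exact Or.inr rfl
  have hψk : ∀ x y, G'.Adj x y → ψ (R x y) < k := by
    intro x y hxy
    have h := (hψ _ (hRE x y hxy)).1
    simp only [L, Finset.mem_sdiff, Finset.mem_range] at h
    exact h.1
  have hψL : ∀ x y, G'.Adj x y → ψ (R x y) ≠ (φ x : ℕ) ∧ (x ∈ S → ψ (R x y) ≠ (b x : ℕ)) := by
    intro x y hxy
    have h := (hψ _ (hRE x y hxy)).1
    simp only [L, Finset.mem_sdiff, Finset.mem_union, Finset.mem_insert,
      Finset.mem_singleton, not_or] at h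
    obtain ⟨_, ⟨h1, h2⟩, h3, h4⟩ := h
    rcases hRmem x y with hR | hR
    · rw [hR] at h1 h3 ⊢
      refine ⟨h1, ?_⟩
      intro hx heq
      apply h3
      simp only [ex]
      rw [if_pos hx, heq]
      exact Finset.mem_singleton_self _
    · rw [hR] at h2 h4 ⊢
      refine ⟨h2, ?_⟩
      intro hx heq
      apply h4
      simp only [ex]
      rw [if_pos hx, heq]
      exact Finset.mem_singleton_self _
  have hψp : ∀ x y z, G'.Adj x y → G'.Adj x z → y ≠ z → ψ (R x y) ≠ ψ (R x z) := by
    intro x y z hxy hxz hyz
    apply (hψ _ (hRE x z hxz)).2 _ (hRE x y hxy)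
    · intro h
      simp only [R] at h
      split_ifs at h with hx
      · exact hyz (Prod.ext_iff.1 h).2
      · exact hyz (Prod.ext_iff.1 h).1
    · simp only [R]
      split_ifs with hx
      · exact Or.inl rfl
      · exact Or.inr rfl
  let F : Sym2 V → Fin k := fun e => if e ∈ H.edgeSet then f0 e else
    if h : ψ (R (Q e).1 (Q e).2) < k then ⟨ψ (R (Q e).1 (Q e).2), h⟩ else ⟨0, hkpos⟩
  have hF0 : ∀ e ∈ H.edgeSet, F e = f0 e := by
    intro e he
    simp only [F]
    rw [if_pos he]
  have key : ∀ x y, G'.Adj x y → R (Q s(x, y)).1 (Q s(x, y)).2 = R x y := by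
    intro x y hxy
    rcases Sym2.eq_iff.1 (hQ s(x, y)) with ⟨h2, h3⟩ | ⟨h2, h3⟩
    · rw [h2, h3]
    · rw [h2, h3, hRsym x y ((hG' x y).1 hxy).1]
  have hF1 : ∀ x y, G'.Adj x y → ((F s(x, y) : Fin k) : ℕ) = ψ (R x y) := by
    intro x y hxy
    have h1 : s(x, y) ∉ H.edgeSet := ((hG' x y).1 hxy).2
    have h2 := key x y hxy
    have h3 : ψ (R (Q s(x, y)).1 (Q s(x, y)).2) < k := by
      rw [h2]
      exact hψk x y hxy
    simp only [F]
    rw [if_neg h1, dif_pos h3]
    exact congrArg ψ h2
  have hHor : ∀ x y, G.Adj x y → H.Adj x y ∨ G'.Adj x y := by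
    intro x y h
    by_cases h' : H.Adj x y
    · exact Or.inl h'
    · exact Or.inr ((hG' x y).2 ⟨h, h'⟩)
  have hSl : ∀ u v, H.Adj u v → u ∈ S := fun u v h => (hS u).2 ⟨v, h⟩
  refine ⟨φ, F, ⟨hφ2, ?_, ?_⟩, ?_, hF0⟩
  · intro u v w huv huw hvw
    rcases hHor u v huv with h | h
    · rcases hHor u w huw with h' | h'
      · exact absurd (hmat u v w h h') hvw
      · intro he
        have h1 := congrArg Fin.val he
        rw [hF0 _ h, hF1 u w h'] at h1
        apply (hψL u w h').2 (hSl u v h)
        rw [← h1]
        simp only [b]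
        rw [hp' u v h]
    · rcases hHor u w huw with h' | h'
      · intro he
        have h1 := congrArg Fin.val he
        rw [hF1 u v h, hF0 s(u, w) h'] at h1
        apply (hψL u v h).2 (hSl u w h')
        rw [h1]
        simp only [b]
        rw [hp' u w h']
      · intro he
        have h1 := congrArg Fin.val he
        rw [hF1 u v h, hF1 u w h'] at h1
        exact hψp u v w h h' hvw h1
  · intro u v huv
    rcases hHor u v huv with h | h
    · rw [hφ1 u (hSl u v h), hF0 _ h]
      exact hc3 u v h
    · intro he
      have h1 := congrArg Fin.val he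
      rw [hF1 u v h] at h1
      exact (hψL u v h).1 h1.symm
  · intro v hv
    exact hφ1 v ((hSsup v).2 hv)

end Pool.Agent.Results.MP_db9399_co.BipartiteGraphs
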