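import Pool.Agent.Q149.TotExtB

/-!
# Extending total colourings from matchings in bipartite graphs

Let `G` be a finite bipartite graph with all degrees at most `D`, let `H` be a matching of `G` and
`k ≥ D + 2`. Two vertices `s`, `t` of `H` are in conflict if they are joined by a path `s w w' t`
whose inner vertices are not in `H` and the edges of `H` at `s` and `t` have the same colour.

(1) If some colour `c` is the colour of no vertex of `H` and every edge of `H` with another colour
is far from the other edges of `H` and in no conflict, then the colouring extends. For instance it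
extends if all edges of `H` have the same colour, and then no distance condition is needed.

(2) If `H` is a distance-3 matching and some matching of `G` covers all vertices of degree `D`
outside `H` and no vertex of `H` on the first side which is in conflict, then it extends.
-/

set_option autoImplicit false

namespace Pool.Agent.Results.MP_db9399_co.BipartiteMatchings

/-- The colours `g` of the vertices and `f` of the edges (the value of `f` at `s(u, v)` is the
colour of the edge `u v`; other values of `f` do not matter) form a total colouring of `G`: adjacent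
vertices, edges with a common end, and an edge and its ends have different colours. -/
def IsTotalColoring {V : Type} {k : ℕ} (G : SimpleGraph V) (g : V → Fin k) (f : Sym2 V → Fin k) :
    Prop :=
  (∀ u v, G.Adj u v → g u ≠ g v) ∧
  (∀ u v w, G.Adj u v → G.Adj u w → v ≠ w → f s(u, v) ≠ f s(u, w)) ∧
  (∀ u v, G.Adj u v → g u ≠ f s(u, v))

/-- No vertex has two neighbours in `H`. -/
def IsMatching {V : Type} (H : SimpleGraph V) : Prop :=
  ∀ u v w, H.Adj u v → H.Adj u w → v = w

/-- `G` has a total colouring which agrees with `g0` on the vertices of `H` (the vertices with a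
neighbour in `H`) and with `f0` on the edges of `H`. -/
def Extends {V : Type} {k : ℕ} (G H : SimpleGraph V) (g0 : V → Fin k) (f0 : Sym2 V → Fin k) :
    Prop :=
  ∃ (g : V → Fin k) (f : Sym2 V → Fin k), IsTotalColoring G g f ∧
    (∀ v ∈ H.support, g v = g0 v) ∧ ∀ e ∈ H.edgeSet, f e = f0 e

/-- The vertices `s` and `t` of `H` are joined by a path `s w w' t` of `G` whose inner vertices are
not vertices of `H`, and the edges of `H` at `s` and at `t` have the same colour. (It is possible
that `t` is the other end of the edge of `H` at `s`.) -/
def Conflict {V : Type} {k : ℕ} (G H : SimpleGraph V) (f0 : Sym2 V → Fin k) (s t : V) : Prop :=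
  ∃ s' w w' t', H.Adj s s' ∧ H.Adj t t' ∧ G.Adj s w ∧ G.Adj w w' ∧ G.Adj w' t ∧
    w ∉ H.support ∧ w' ∉ H.support ∧ f0 s(s, s') = f0 s(t, t')

/-- Let `G` be a finite simple graph with a bipartition `side`, in which every vertex has at most
`D` neighbours, let `k ≥ D + 2`, and let `H` be a matching of `G` with a total colouring `g0`, `f0`
with `k` colours.

(1) Let vertices of `H` adjacent in `G` have different colours and let `c` be a colour which is not
the colour of a vertex of `H`. Suppose that every edge `s s'` of `H` whose colour is not `c` has
distance at least `3` from all other vertices of `H` and that `s` is in no conflict. Then the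
colouring extends to `G`.

(2) Let vertices of `H` in different components have distance at least `3` in `G`. Suppose that `G`
has a matching `N` which covers every vertex outside `H` with `D` neighbours and no vertex `s` of
`H` on the side `true` which is in conflict with some `t`. Then the colouring extends to `G`. -/
theorem result (V : Type) [Fintype V] (G : SimpleGraph V) (side : V → Bool)
    (hside : ∀ u v, G.Adj u v → side u ≠ side v) (D : ℕ)
    (hD : ∀ v, (G.neighborSet v).ncard ≤ D) (k : ℕ) (hk : D + 2 ≤ k)
    (H : SimpleGraph V) (hHG : H ≤ G) (hH : IsMatching H) (g0 : V → Fin k) (f0 : Sym2 V → Fin k)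
    (h0 : IsTotalColoring H g0 f0) :
    (∀ c : Fin k,
      (∀ u v, u ∈ H.support → v ∈ H.support → G.Adj u v → g0 u ≠ g0 v) →
      (∀ v ∈ H.support, g0 v ≠ c) →
      (∀ s s', H.Adj s s' → f0 s(s, s') ≠ c →
        (∀ t ∈ H.support, t ≠ s → t ≠ s' → 3 ≤ G.edist s t) ∧ ∀ t, ¬ Conflict G H f0 s t) →
      Extends G H g0 f0) ∧
    (∀ N : SimpleGraph V,
      (∀ u v, u ∈ H.support → v ∈ H.support → u ≠ v → ¬ H.Adj u v → 3 ≤ G.edist u v) →
      N ≤ G → IsMatching N →
      (∀ v, v ∉ H.support → (G.neighborSet v).ncard = D → v ∈ N.support) →
      (∀ s t, side s = true → Conflict G H f0 s t → s ∉ N.support) →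
      Extends G H g0 f0) := by
  obtain ⟨hc1, hc2, hc3⟩ := h0
  constructor
  · intro c hprop hu hcond
    exact Q149.TotExtA.partA G side hside D hD k hk H hHG hH g0 f0 hc3 hprop c hu
      (fun s s' t hs hc ht h1 h2 => (hcond s s' hs hc).1 t ht h1 h2)
      (fun s s' w w' t t' hs ht hc h1 h2 h3 h4 h5 heq =>
        (hcond s s' hs hc).2 t ⟨s', w, w', t', hs, ht, h1, h2, h3, h4, h5, heq⟩)
  · intro N hdist hNG hN hN1 hN2
    exact Q149.TotExtB.partB G side hside D hD k hk H hHG hH hdist g0 f0 hc1 hc3 N hNG hN hN1
      (fun s s' w w' t t' hs1 hs ht h1 h2 h3 h4 h5 heq =>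
        hN2 s t hs1 ⟨s', w, w', t', hs, ht, h1, h2, h3, h4, h5, heq⟩)

end Pool.Agent.Results.MP_db9399_co.BipartiteMatchings
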