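import Pool.Agent.Q112.TotExt

/-!
# Extending total colourings from distance-3 matchings in sparse graphs

For every finite simple graph `G` with maximum degree at most `D` and maximum average degree at most
`a`, where `40 * a * (1 + log D) ≤ D`, every total colouring with `k ≥ D + 1` colours of a
distance-3 matching `H` of `G` extends to a total colouring of `G` with the same `k` colours. For
`k = D + 2` this is the statement of the question for these graphs.
-/

set_option autoImplicit false

namespace Pool.Agent.Results.MP_db9399_co.SparseGraphs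

open Finset Pool.Agent.H162R2.Sparse Pool.Agent.Q112.TotExt

/-- The colours `g` of the vertices and `f` of the edges (the value of `f` at `s(u, v)` is the
colour of the edge `u v`; other values of `f` do not matter) form a total colouring of `G`: adjacent
vertices, edges with a common end, and an edge and its ends have different colours. -/
def IsTotalColoring {V : Type} {k : ℕ} (G : SimpleGraph V) (g : V → Fin k) (f : Sym2 V → Fin k) :
    Prop :=
  (∀ u v, G.Adj u v → g u ≠ g v) ∧
  (∀ u v w, G.Adj u v → G.Adj u w → v ≠ w → f s(u, v) ≠ f s(u, w)) ∧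
  (∀ u v, G.Adj u v → g u ≠ f s(u, v))

/-- `H` is a distance-3 matching of `G`: a matching (a subgraph in which no vertex has two
neighbours; its vertices are the vertices with a neighbour in `H`) such that two vertices of `H` in
different components of `H` are at distance at least `3` in `G`. -/
def IsDistThreeMatching {V : Type} (G H : SimpleGraph V) : Prop :=
  H ≤ G ∧ (∀ u v w, H.Adj u v → H.Adj u w → v = w) ∧
    ∀ u v, u ∈ H.support → v ∈ H.support → u ≠ v → ¬ H.Adj u v → 3 ≤ G.edist u v

theorem edist_adj {V : Type} (G : SimpleGraph V) (u v : V) (h : G.Adj u v)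
    (h3 : 3 ≤ G.edist u v) : False := by
  have h1 : G.edist u v ≤ 1 := by
    have := SimpleGraph.Walk.edist_le (SimpleGraph.Walk.cons h SimpleGraph.Walk.nil)
    simpa using this
  have h2 : (3 : ℕ∞) ≤ 1 := h3.trans h1
  exact absurd h2 (by decide)

theorem edist_two {V : Type} (G : SimpleGraph V) (u v w : V) (h : G.Adj w u) (h' : G.Adj w v)
    (h3 : 3 ≤ G.edist u v) : False := by
  have h1 : G.edist u v ≤ 2 := by
    have := SimpleGraph.Walk.edist_le
      (SimpleGraph.Walk.cons h.symm (SimpleGraph.Walk.cons h' SimpleGraph.Walk.nil))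
    simpa using this
  have h2 : (3 : ℕ∞) ≤ 2 := h3.trans h1
  exact absurd h2 (by decide)

/-- Let `G` be a finite simple graph in which every vertex has at most `D` neighbours and every set
`X` of vertices spans at most `a * |X| / 2` edges (at most `a * |X|` ordered pairs of adjacent
vertices), that is, the maximum average degree of `G` is at most `a`, and let
`40 * a * (1 + log D) ≤ D`. Then for every `k ≥ D + 1` and every distance-3 matching `H` of `G`,
every total colouring of `H` with `k` colours extends to a total colouring of `G` with the same `k`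
colours. -/
theorem result (V : Type) [Fintype V] (G : SimpleGraph V) (D : ℕ)
    (hD : ∀ v, (G.neighborSet v).ncard ≤ D) (a : ℝ)
    (hmad : ∀ X : Finset V,
      ({e : V × V | e.1 ∈ X ∧ e.2 ∈ X ∧ G.Adj e.1 e.2}.ncard : ℝ) ≤ a * X.card)
    (ha : 40 * a * (1 + Real.log D) ≤ D) (k : ℕ) (hk : D + 1 ≤ k)
    (H : SimpleGraph V) (hH : IsDistThreeMatching G H) (g0 : V → Fin k) (f0 : Sym2 V → Fin k)
    (h0 : IsTotalColoring H g0 f0) :
    ∃ (g : V → Fin k) (f : Sym2 V → Fin k), IsTotalColoring G g f ∧
      (∀ v ∈ H.support, g v = g0 v) ∧ ∀ e ∈ H.edgeSet, f e = f0 e := by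
  classical
  obtain ⟨hHG, hmat, hdist⟩ := hH
  obtain ⟨hc1, hc2, hc3⟩ := h0
  let S : Finset V := Finset.univ.filter (fun v => v ∈ H.support)
  have hS : ∀ v, v ∈ S ↔ ∃ w, H.Adj v w := by
    intro v
    simp only [S, Finset.mem_filter, Finset.mem_univ, true_and]
    exact SimpleGraph.mem_support H
  have hSsup : ∀ v, v ∈ S ↔ v ∈ H.support := by
    intro v
    simp [S]
  -- the partner of a vertex of the matching
  let p : V → V := fun v => if h : ∃ w, H.Adj v w then h.choose else v
  have hp : ∀ v ∈ S, H.Adj v (p v) := by
    intro v hv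
    have h := (hS v).1 hv
    simp only [p]
    rw [dif_pos h]
    exact h.choose_spec
  have hp' : ∀ v w, H.Adj v w → p v = w := by
    intro v w h
    exact hmat v _ _ (hp v ((hS v).2 ⟨w, h⟩)) h
  let ex : V → Finset ℕ := fun v => if v ∈ S then {(g0 v : ℕ), (f0 s(v, p v) : ℕ)} else ∅
  have hex2 : ∀ v, (ex v).card ≤ 2 := by
    intro v
    simp only [ex]
    split_ifs
    · exact Finset.card_le_two
    · simp
  let L : V → V → Finset ℕ := fun x y => Finset.range k \ (ex x ∪ ex y)
  let M : V → Finset ℕ := fun v => if v ∈ S then {(g0 v : ℕ)} else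
    Finset.range k \ (S.filter (fun s => G.Adj v s)).image (fun s => (g0 s : ℕ))
  let G' : SimpleGraph V := G \ H
  have hG' : ∀ x y, G'.Adj x y ↔ G.Adj x y ∧ ¬ H.Adj x y := by
    intro x y
    simp only [G', SimpleGraph.sdiff_adj]
  have hSadj : ∀ s ∈ S, ∀ t ∈ S, G.Adj s t → H.Adj s t := by
    intro s hs t ht hst
    by_contra hn
    exact edist_adj G s t hst (hdist s t ((hSsup s).1 hs) ((hSsup t).1 ht) hst.ne hn)
  -- a vertex has at most two neighbours in the matching
  have hS2 : ∀ w, (S.filter (fun s => G.Adj w s)).card ≤ 2 := by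
    intro w
    rcases (S.filter (fun s => G.Adj w s)).eq_empty_or_nonempty with h | ⟨s, hs⟩
    · rw [h]
      simp
    · rw [Finset.mem_filter] at hs
      have h1 : S.filter (fun s => G.Adj w s) ⊆ {s, p s} := by
        intro t ht
        rw [Finset.mem_filter] at ht
        rw [Finset.mem_insert, Finset.mem_singleton]
        by_cases hst : t = s
        · exact Or.inl hst
        · right
          by_contra hne
          have h2 : ¬ H.Adj s t := fun h => hne (hp' s t h).symm
          exact edist_two G s t w hs.2 ht.2
            (hdist s t ((hSsup s).1 hs.1) ((hSsup t).1 ht.1) (fun h => hst h.symm) h2)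
      exact (Finset.card_le_card h1).trans Finset.card_le_two
  have hdg : ∀ v, dg G v = (G.neighborSet v).ncard := by
    intro v
    unfold dg
    rw [← Set.ncard_coe_finset]
    congr 1
    ext w
    simp [mem_nb]
  have hmono : ∀ x y, G'.Adj x y → G.Adj x y := fun x y h => ((hG' x y).1 h).1
  have hdgG' : ∀ v, dg G' v ≤ D := by
    intro v
    exact (dg_mono hmono v).trans ((hdg v).le.trans (hD v))
  have hdgS : ∀ s ∈ S, dg G' s + 1 ≤ D := by
    intro s hs
    have h1 := hp s hs
    have h2 : nb G' s ⊆ (nb G s).erase (p s) := by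
      intro w hw
      rw [mem_nb, hG'] at hw
      rw [Finset.mem_erase, mem_nb]
      refine ⟨?_, hw.1⟩
      rintro rfl
      exact hw.2 h1
    have h3 : ((nb G s).erase (p s)).card + 1 = dg G s :=
      Finset.card_erase_add_one ((mem_nb G s _).2 (hHG h1))
    have h4 := Finset.card_le_card h2
    have h5 := hD s
    rw [← hdg s] at h5
    unfold dg at h3 h5 ⊢
    omega
  have hdens : Dens G a := by
    intro X
    refine le_trans (le_of_eq ?_) (hmad X)
    rw [← Set.ncard_coe_finset]
    congr 2
    ext e
    simp only [Finset.coe_filter, Set.mem_setOf_eq, mem_pr]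
    tauto
  have hsym : ∀ x y, L x y = L y x := by
    intro x y
    simp only [L]
    rw [Finset.union_comm]
  have hkpos : 0 < k := by omega
  have hMcard : ∀ v, v ∉ S → D ≤ (M v).card + 1 := by
    intro v hv
    simp only [M]
    rw [if_neg hv]
    have h1 := Finset.le_card_sdiff
      ((S.filter (fun s => G.Adj v s)).image (fun s => (g0 s : ℕ))) (Finset.range k)
    have h2 := Finset.card_image_le (s := S.filter (fun s => G.Adj v s)) (f := fun s => (g0 s : ℕ))
    have h3 := hS2 v
    rw [Finset.card_range] at h1
    omega
  have hMne : ∀ v, (M v).Nonempty := by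
    intro v
    by_cases hv : v ∈ S
    · simp only [M]
      rw [if_pos hv]
      exact Finset.singleton_nonempty _
    · by_cases hn : ∃ s ∈ S, G.Adj v s
      · obtain ⟨s, hs, hvs⟩ := hn
        -- then `D` is large
        have ha1 : (1 : ℝ) ≤ a := by
          have h1 := hmad {v, s}
          have h2 : ({v, s} : Finset V).card = 2 := Finset.card_pair hvs.ne
          have h3 : (2 : ℝ) ≤ ({e : V × V | e.1 ∈ ({v, s} : Finset V) ∧ e.2 ∈ ({v, s} : Finset V) ∧
              G.Adj e.1 e.2}.ncard : ℝ) := by
            have h4 : ({(v, s), (s, v)} : Finset (V × V)).card = 2 := by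
              apply Finset.card_pair
              intro h
              exact hvs.ne (Prod.ext_iff.1 h).1
            have h5 : ((({(v, s), (s, v)} : Finset (V × V)) : Set (V × V))) ⊆
                {e : V × V | e.1 ∈ ({v, s} : Finset V) ∧ e.2 ∈ ({v, s} : Finset V) ∧
                  G.Adj e.1 e.2} := by
              intro e he
              simp only [Finset.coe_insert, Finset.coe_singleton, Set.mem_insert_iff,
                Set.mem_singleton_iff] at he
              rcases he with rfl | rfl
              · simp [hvs]
              · simp [hvs.symm]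
            have h6 := Set.ncard_le_ncard h5 (Set.toFinite _)
            rw [Set.ncard_coe_finset, h4] at h6
            exact_mod_cast h6
          rw [h2] at h1
          push_cast at h1
          linarith
        have hlog : 0 ≤ Real.log (D : ℝ) := Real.log_natCast_nonneg D
        have h40 : (40 : ℝ) ≤ D := by nlinarith
        have h40' : 40 ≤ D := by exact_mod_cast h40
        have h2 := hMcard v hv
        rw [← Finset.card_pos]
        omega
      · have h1 : S.filter (fun s => G.Adj v s) = ∅ := by
          rw [Finset.filter_eq_empty_iff]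
          intro s hs hvs
          exact hn ⟨s, hs, hvs⟩
        simp only [M]
        rw [if_neg hv, h1]
        simp only [Finset.image_empty, Finset.sdiff_empty]
        exact ⟨0, Finset.mem_range.2 hkpos⟩
  have hLS : ∀ s ∈ S, ∀ w, G'.Adj s w →
      w ∉ S ∧ D ≤ (L s w).card + 1 ∧ ∀ c ∈ M s, c ∉ L s w ∧ c ∉ M w := by
    intro s hs w hsw
    rw [hG'] at hsw
    have hw : w ∉ S := fun hw => hsw.2 (hSadj s hs w hw hsw.1)
    refine ⟨hw, ?_, ?_⟩
    · have h1 : ex w = ∅ := by
        simp only [ex]
        rw [if_neg hw]
      have h2 := Finset.le_card_sdiff (ex s ∪ ex w) (Finset.range k)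
      rw [h1, Finset.union_empty, Finset.card_range] at h2
      have h3 := hex2 s
      simp only [L]
      rw [h1, Finset.union_empty]
      omega
    · intro c hc
      simp only [M] at hc
      rw [if_pos hs, Finset.mem_singleton] at hc
      constructor
      · intro h
        simp only [L, Finset.mem_sdiff, Finset.mem_union, not_or] at h
        apply h.2.1
        simp only [ex]
        rw [if_pos hs, hc]
        exact Finset.mem_insert_self _ _
      · intro h
        simp only [M] at h
        rw [if_neg hw, Finset.mem_sdiff] at h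
        apply h.2
        rw [hc]
        apply Finset.mem_image_of_mem (fun s => (g0 s : ℕ))
        exact Finset.mem_filter.2 ⟨hs, hsw.1.symm⟩
  obtain ⟨f, g, hf1, hf2, hf3, hg1, hg2, hg3⟩ := main_ext D a ha L M S hsym hMne hMcard _ G' rfl
    hdgG' hdgS (Dens_mono hmono hdens) (by
      intro u v _ hu hv
      have h1 : ex u = ∅ := by
        simp only [ex]
        rw [if_neg hu]
      have h2 : ex v = ∅ := by
        simp only [ex]
        rw [if_neg hv]
      simp only [L]
      rw [h1, h2, Finset.union_empty, Finset.sdiff_empty, Finset.card_range]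
      exact hk) hLS (by
      intro w
      refine le_trans (Finset.card_le_card ?_) (hS2 w)
      intro x hx
      rw [Finset.mem_filter, mem_nb, hG'] at hx
      exact Finset.mem_filter.2 ⟨hx.2, hx.1.1⟩)
  -- all colours are below `k`
  have hgk : ∀ v, g v < k := by
    intro v
    have h := hg1 v
    simp only [M] at h
    by_cases hv : v ∈ S
    · rw [if_pos hv, Finset.mem_singleton] at h
      rw [h]
      exact (g0 v).2
    · rw [if_neg hv, Finset.mem_sdiff, Finset.mem_range] at h
      exact h.1
  have hfk : ∀ x y, G'.Adj x y → f x y < k := by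
    intro x y hxy
    have h := hf2 x y hxy
    simp only [L, Finset.mem_sdiff, Finset.mem_range] at h
    exact h.1
  have hgS : ∀ v ∈ S, g v = (g0 v : ℕ) := by
    intro v hv
    have h := hg1 v
    simp only [M] at h
    rw [if_pos hv, Finset.mem_singleton] at h
    exact h
  have hfS : ∀ s ∈ S, ∀ w, G'.Adj s w → f s w ≠ (f0 s(s, p s) : ℕ) := by
    intro s hs w hsw h
    have h1 := hf2 s w hsw
    simp only [L, Finset.mem_sdiff, Finset.mem_union, not_or] at h1
    apply h1.2.1
    simp only [ex]
    rw [if_pos hs, h]
    exact Finset.mem_insert_of_mem (Finset.mem_singleton_self _)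
  have hrep : ∀ e : Sym2 V, ∃ q : V × V, s(q.1, q.2) = e := by
    intro e
    induction e using Sym2.ind with
    | _ x y => exact ⟨(x, y), rfl⟩
  choose Q hQ using hrep
  have key : ∀ x y, G'.Adj x y → f (Q s(x, y)).1 (Q s(x, y)).2 = f x y := by
    intro x y hxy
    rcases Sym2.eq_iff.1 (hQ s(x, y)) with ⟨h2, h3⟩ | ⟨h2, h3⟩
    · rw [h2, h3]
    · rw [h2, h3, hf1 x y hxy]
  let F : Sym2 V → Fin k := fun e => if e ∈ H.edgeSet then f0 e else
    if h : f (Q e).1 (Q e).2 < k then ⟨f (Q e).1 (Q e).2, h⟩ else ⟨0, hkpos⟩
  have hF0 : ∀ e ∈ H.edgeSet, F e = f0 e := by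
    intro e he
    simp only [F]
    rw [if_pos he]
  have hF1 : ∀ x y, G'.Adj x y → ((F s(x, y) : Fin k) : ℕ) = f x y := by
    intro x y hxy
    have h1 : s(x, y) ∉ H.edgeSet := ((hG' x y).1 hxy).2
    have h2 := key x y hxy
    have h3 : f (Q s(x, y)).1 (Q s(x, y)).2 < k := by
      rw [h2]
      exact hfk x y hxy
    simp only [F]
    rw [if_neg h1, dif_pos h3]
    exact h2
  have hHor : ∀ x y, G.Adj x y → H.Adj x y ∨ G'.Adj x y := by
    intro x y h
    by_cases h' : H.Adj x y
    · exact Or.inl h'
    · exact Or.inr ((hG' x y).2 ⟨h, h'⟩)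
  let g' : V → Fin k := fun v => ⟨g v, hgk v⟩
  have hg'S : ∀ v ∈ S, g' v = g0 v := by
    intro v hv
    apply Fin.ext
    exact hgS v hv
  have hSl : ∀ u v, H.Adj u v → u ∈ S := fun u v h => (hS u).2 ⟨v, h⟩
  refine ⟨g', F, ⟨?_, ?_, ?_⟩, ?_, hF0⟩
  · intro u v huv
    rcases hHor u v huv with h | h
    · rw [hg'S u (hSl u v h), hg'S v (hSl v u h.symm)]
      exact hc1 u v h
    · intro he
      exact hg2 u v h (congrArg Fin.val he)
  · intro u v w huv huw hvw
    rcases hHor u v huv with h | h
    · rcases hHor u w huw with h' | h'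
      · exact absurd (hmat u v w h h') hvw
      · intro he
        have h1 := congrArg Fin.val he
        rw [hF0 _ h, hF1 u w h'] at h1
        apply hfS u (hSl u v h) w h'
        rw [← h1, hp' u v h]
    · rcases hHor u w huw with h' | h'
      · intro he
        have h1 := congrArg Fin.val he
        rw [hF1 u v h, hF0 s(u, w) h'] at h1
        apply hfS u (hSl u w h') v h
        rw [h1, hp' u w h']
      · intro he
        have h1 := congrArg Fin.val he
        rw [hF1 u v h, hF1 u w h'] at h1
        exact hf3 u v w h h' hvw h1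
  · intro u v huv
    rcases hHor u v huv with h | h
    · rw [hg'S u (hSl u v h), hF0 _ h]
      exact hc3 u v h
    · intro he
      have h1 := congrArg Fin.val he
      rw [hF1 u v h] at h1
      exact hg3 u v h h1
  · intro v hv
    exact hg'S v ((hSsup v).2 hv)

end Pool.Agent.Results.MP_db9399_co.SparseGraphs
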